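import Mathlib

/-!
# A Mengerian set system without the seven-set minor whose Menger dual is not Menger

The system `nine` has the points `a₁ a₂ a₃ b₁ b₂ b₃ c₁ c₂ c₃` (the numbers `0, …, 8` in this order)
and the ten blocks
`a₁a₂, a₂a₃, b₁b₂, b₂b₃, c₁c₂, c₂c₃, a₁b₁c₁, a₃b₂c₂, a₂b₃c₂, a₂b₂c₃`.
It is Mengerian; the four blocks with three points cover nine points, so it does not contain the
system `𝒬` of the problem, whose four blocks with three points cover six points; and in every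
colouring of the nine points with two colours some block is monochromatic, so that the Menger dual
does not have two disjoint blocks, whereas each of its covers has at least two points.
-/

open Finset

namespace Pool.Agent.Results.MP_f18e63_co.NinePoints

/-- A set system: a finite set of points and a finite collection of distinct subsets of it. -/
structure SetSystem (α : Type) [DecidableEq α] where
  /-- the points -/
  pts : Finset α
  /-- the blocks -/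
  blocks : Finset (Finset α)
  /-- the blocks consist of points -/
  sub : ∀ B ∈ blocks, B ⊆ pts

variable {α : Type} [DecidableEq α]

namespace SetSystem

/-- The inclusion-minimal blocks. -/
def minBlocks (F : SetSystem α) : Finset (Finset α) :=
  F.blocks.filter fun B => ∀ B' ∈ F.blocks, B' ⊆ B → B' = B

/-- `C` meets every inclusion-minimal block. -/
def Meets (F : SetSystem α) (C : Finset α) : Prop := ∀ B ∈ F.minBlocks, (C ∩ B).Nonempty

instance (F : SetSystem α) (C : Finset α) : Decidable (F.Meets C) := by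
  unfold Meets; infer_instance

/-- The Menger dual: its blocks are the inclusion-minimal sets of points which meet every
inclusion-minimal block. -/
def dual (F : SetSystem α) : SetSystem α where
  pts := F.pts
  blocks := F.pts.powerset.filter fun C => F.Meets C ∧ ∀ C' ∈ C.powerset, F.Meets C' → C' = C
  sub := fun _ hB => mem_powerset.1 (mem_filter.1 hB).1

/-- The Menger property: the largest number of pairwise disjoint inclusion-minimal blocks is the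
least cardinality of a block of the Menger dual; by convention it holds if there are no blocks or if
the empty set is a block. -/
def MengerProperty (F : SetSystem α) : Prop :=
  F.blocks = ∅ ∨ ∅ ∈ F.blocks ∨
    ∃ k : ℕ,
      IsGreatest {n : ℕ | ∃ P ⊆ F.minBlocks,
        (∀ B ∈ P, ∀ B' ∈ P, B ≠ B' → Disjoint B B') ∧ P.card = n} k ∧
      IsLeast {n : ℕ | ∃ C ∈ F.dual.blocks, C.card = n} k

/-- Mengerian set systems. -/
def Mengerian (F : SetSystem α) : Prop :=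
  ∅ ∈ F.blocks ∨ ∀ c : α → ℕ, ∃ f : Finset α → ℕ,
    (∀ x ∈ F.pts, ∑ B ∈ F.blocks with x ∈ B, f B ≤ c x) ∧
    IsLeast {m : ℕ | ∃ C ∈ F.dual.blocks, ∑ x ∈ C, c x = m} (∑ B ∈ F.blocks, f B)

/-- Weak point-restriction: remove the points of `T` from all blocks. -/
def weak (F : SetSystem α) (T : Finset α) : SetSystem α where
  pts := F.pts \ T
  blocks := F.blocks.image fun B => B \ T
  sub := by
    intro B hB
    obtain ⟨B', hB', rfl⟩ := mem_image.1 hB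
    exact sdiff_subset_sdiff (F.sub B' hB') (Subset.refl _)

/-- Strong point-restriction: keep the blocks disjoint from `T`. -/
def strong (F : SetSystem α) (T : Finset α) : SetSystem α where
  pts := F.pts \ T
  blocks := F.blocks.filter fun B => Disjoint B T
  sub := by
    intro B hB
    obtain ⟨hB, hd⟩ := mem_filter.1 hB
    exact subset_sdiff.2 ⟨F.sub B hB, hd⟩

/-- `M` is a minor of `F`: it is obtained by a sequence of weak and strong point-restrictions. -/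
inductive IsMinor (F : SetSystem α) : SetSystem α → Prop
  | refl : IsMinor F F
  | weak (M : SetSystem α) (T : Finset α) : IsMinor F M → T ⊆ M.pts → IsMinor F (M.weak T)
  | strong (M : SetSystem α) (T : Finset α) : IsMinor F M → T ⊆ M.pts → IsMinor F (M.strong T)

/-- `F` contains the system with the blocks `Q` as a minor: the inclusion-minimal blocks of some
minor are the blocks of `Q`, up to an injective renaming of the points. -/
def Contains {β : Type} [DecidableEq β] (F : SetSystem α) (Q : Finset (Finset β)) : Prop :=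
  ∃ M, IsMinor F M ∧ ∃ g : β → α, Function.Injective g ∧
    M.minBlocks = Q.image fun B => B.image g

end SetSystem

/-- The seven blocks `abc, cde, bdf, aef, cf, be, ad` on the points `a, b, c, d, e, f`, which are
the numbers `0, 1, 2, 3, 4, 5`. -/
def seven : Finset (Finset (Fin 6)) :=
  {{0, 1, 2}, {2, 3, 4}, {1, 3, 5}, {0, 4, 5}, {2, 5}, {1, 4}, {0, 3}}

/-! ### The example -/

/-- The example. -/
def nine : SetSystem (Fin 9) where
  pts := univ
  blocks := {{0, 1}, {1, 2}, {3, 4}, {4, 5}, {6, 7}, {7, 8}, {0, 3, 6}, {2, 4, 7}, {1, 5, 7},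
    {1, 4, 8}}
  sub := fun B _ => subset_univ B

open SetSystem

lemma nine_min : nine.minBlocks = nine.blocks := by decide +kernel

lemma nine_colour : ∀ A : Finset (Fin 9), ∃ B ∈ nine.blocks, B ⊆ A ∨ Disjoint B A := by
  decide +kernel


/-! ### No minor `𝒬` -/

lemma minor_blocks (F M : SetSystem α) (h : IsMinor F M) : ∃ D C : Finset α,
    M.blocks = (F.blocks.filter fun B => Disjoint B D).image fun B => B \ C := by
  induction h with
  | refl => exact ⟨∅, ∅, by simp⟩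
  | weak M T _ _ ih =>
    obtain ⟨D, C, h⟩ := ih
    refine ⟨D, C ∪ T, ?_⟩
    simp only [SetSystem.weak, h, image_image]
    refine image_congr fun B _ => ?_
    simp only [Function.comp]
    rw [sdiff_sdiff_left]; rfl
  | strong M T _ _ ih =>
    obtain ⟨D, C, h⟩ := ih
    refine ⟨D ∪ (T \ C), C, ?_⟩
    simp only [SetSystem.strong, h]
    ext B
    simp only [mem_filter, mem_image]
    constructor
    · rintro ⟨⟨B, ⟨hB, hD⟩, rfl⟩, hT⟩
      refine ⟨B, ⟨hB, disjoint_union_right.2 ⟨hD, ?_⟩⟩, rfl⟩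
      rw [Finset.disjoint_left] at hT ⊢
      intro x hx hxT
      rw [mem_sdiff] at hxT
      exact hT (mem_sdiff.2 ⟨hx, hxT.2⟩) hxT.1
    · rintro ⟨B, ⟨hB, hD⟩, rfl⟩
      rw [disjoint_union_right] at hD
      refine ⟨⟨B, ⟨hB, hD.1⟩, rfl⟩, ?_⟩
      have := hD.2
      rw [Finset.disjoint_left] at this ⊢
      intro x hx hxT
      rw [mem_sdiff] at hx
      exact this hx.1 (mem_sdiff.2 ⟨hxT, hx.2⟩)

lemma minBlocks_subset (F : SetSystem α) : F.minBlocks ⊆ F.blocks := filter_subset _ _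

lemma not_contains : ¬ nine.Contains seven := by
  rintro ⟨M, hM, g, hg, hQ⟩
  obtain ⟨D, C, hDC⟩ := minor_blocks nine M hM
  let S3 := seven.filter fun B => B.card = 3
  let N3 := nine.blocks.filter fun B => B.card = 3
  have h1 : S3.image (fun B => B.image g) ⊆ N3 := by
    intro X hX
    obtain ⟨B, hB, rfl⟩ := mem_image.1 hX
    obtain ⟨hB1, hB2⟩ := mem_filter.1 hB
    have hcard : (B.image g).card = 3 := by rw [card_image_of_injective _ hg, hB2]
    have hmem : B.image g ∈ M.minBlocks := by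
      rw [hQ]; exact mem_image_of_mem _ hB1
    have hmem2 : B.image g ∈ M.blocks := minBlocks_subset M hmem
    rw [hDC] at hmem2
    obtain ⟨B', hB', he⟩ := mem_image.1 hmem2
    have hB'1 := (mem_filter.1 hB').1
    have hle : ∀ B ∈ nine.blocks, B.card ≤ 3 := by decide +kernel
    have hsub : B' \ C ⊆ B' := sdiff_subset
    have heq : B' \ C = B' := by
      apply eq_of_subset_of_card_le hsub
      rw [he, hcard]; exact hle B' hB'1
    have : B.image g = B' := by rw [← he, heq]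
    rw [this]
    exact mem_filter.2 ⟨hB'1, by rw [← this, hcard]⟩
  have h2 : N3.card ≤ (S3.image fun B => B.image g).card := by
    rw [card_image_of_injective _ (image_injective hg)]
    have h3 : N3.card = 4 := by decide +kernel
    have h4 : S3.card = 4 := by decide +kernel
    rw [h3, h4]
  have h5 := eq_of_subset_of_card_le h1 h2
  have h6 : N3.biUnion id = univ := by decide +kernel
  have h7 : (univ : Finset (Fin 9)) ⊆ (univ : Finset (Fin 6)).image g := by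
    rw [← h6, ← h5]
    intro x hx
    obtain ⟨X, hX, hxX⟩ := mem_biUnion.1 hx
    obtain ⟨B, _, rfl⟩ := mem_image.1 hX
    exact image_subset_image (subset_univ _) hxX
  have := (card_le_card h7).trans card_image_le
  simp at this

/-! ### The Menger dual does not have the Menger property -/

lemma mem_dual (F : SetSystem α) (C : Finset α) : C ∈ F.dual.blocks ↔
    C ⊆ F.pts ∧ F.Meets C ∧ ∀ C' ∈ C.powerset, F.Meets C' → C' = C := by
  have : F.dual.blocks = F.pts.powerset.filter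
    fun C => F.Meets C ∧ ∀ C' ∈ C.powerset, F.Meets C' → C' = C := rfl
  rw [this, Finset.mem_filter, mem_powerset]

lemma dual_minBlocks (F : SetSystem α) : F.dual.minBlocks = F.dual.blocks := by
  ext B
  unfold SetSystem.minBlocks
  rw [mem_filter]
  refine ⟨fun h => h.1, fun hB => ⟨hB, fun B' hB' hs => ?_⟩⟩
  rw [mem_dual] at hB hB'
  exact hB.2.2 B' (mem_powerset.2 hs) hB'.2.1

/-- The blocks, as a sequence. -/
def blk : Fin 10 → Finset (Fin 9) :=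
  ![{0, 1}, {1, 2}, {3, 4}, {4, 5}, {6, 7}, {7, 8}, {0, 3, 6}, {2, 4, 7}, {1, 5, 7}, {1, 4, 8}]

lemma blk_inj : Function.Injective blk := by decide +kernel

lemma blocks_eq : nine.blocks = univ.image blk := by decide +kernel

lemma nine_meets (C : Finset (Fin 9)) : nine.Meets C ↔ ∀ i, (C ∩ blk i).Nonempty := by
  unfold SetSystem.Meets
  rw [nine_min, blocks_eq]
  simp

lemma mem_dual_nine {C : Finset (Fin 9)} (h1 : ∀ i, (C ∩ blk i).Nonempty)
    (h2 : ∀ x ∈ C, ∃ i, C ∩ blk i = {x}) : C ∈ nine.dual.blocks := by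
  rw [mem_dual]
  refine ⟨subset_univ _, (nine_meets C).2 h1, fun C' hC' hm => ?_⟩
  rw [mem_powerset] at hC'
  rw [nine_meets] at hm
  refine Subset.antisymm hC' fun x hx => ?_
  obtain ⟨i, hi⟩ := h2 x hx
  obtain ⟨y, hy⟩ := hm i
  have : y ∈ C ∩ blk i := inter_subset_inter hC' (Subset.refl _) hy
  rw [hi, mem_singleton] at this
  rw [← this]
  exact (mem_inter.1 hy).1

/-- The ten minimal covers. -/
def cov : Fin 10 → Finset (Fin 9) :=
  ![{0, 1, 4, 7}, {1, 3, 4, 7}, {1, 4, 6, 7}, {0, 2, 4, 7}, {1, 3, 5, 7}, {1, 4, 6, 8},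
    {0, 2, 3, 5, 6, 8}, {1, 2, 3, 5, 6, 8}, {0, 2, 4, 5, 6, 8}, {0, 2, 3, 5, 7, 8}]

lemma cov_mem (i : Fin 10) : cov i ∈ nine.dual.blocks := by
  apply mem_dual_nine
  · revert i; decide +kernel
  · revert i; decide +kernel

lemma dual_avoid : ∀ x : Fin 9, ∃ C ∈ nine.dual.minBlocks, x ∉ C := by
  rw [dual_minBlocks]
  have : ∀ x : Fin 9, ∃ i, x ∉ cov i := by decide +kernel
  intro x
  obtain ⟨i, hi⟩ := this x
  exact ⟨cov i, cov_mem i, hi⟩

lemma not_menger : ¬ nine.dual.MengerProperty := by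
  rintro (h | h | ⟨k, hk1, hk2⟩)
  · obtain ⟨C, hC, -⟩ := dual_avoid 0
    rw [dual_minBlocks, h] at hC
    simp at hC
  · rw [mem_dual] at h
    have := h.2.1 {0, 1} (by rw [nine_min]; decide)
    simp at this
  · have hk : 2 ≤ k := by
      obtain ⟨C, hC, rfl⟩ := hk2.1
      rw [mem_dual] at hC
      have hC' := hC.2.1
      by_contra hlt
      have hC1 : C.card ≤ 1 := by omega
      rw [card_le_one_iff_subset_singleton] at hC1
      obtain ⟨x, hx⟩ := hC1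
      obtain ⟨B, hB, hxB⟩ := dual_avoid x
      obtain ⟨y, hy⟩ := hC' B hB
      rw [mem_inter] at hy
      have := mem_singleton.1 (hx hy.1)
      exact hxB (this ▸ hy.2)
    obtain ⟨P, hP, hd, hcard⟩ := hk1.1
    have : 1 < P.card := by omega
    obtain ⟨C, hC, C', hC', hne⟩ := one_lt_card.1 this
    have hdis := hd C hC C' hC' hne
    have m1 := hP hC
    have m2 := hP hC'
    rw [dual_minBlocks] at m1 m2
    rw [mem_dual] at m1 m2
    obtain ⟨B, hB, hBC⟩ := nine_colour C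
    rw [← nine_min] at hB
    rcases hBC with h | h
    · obtain ⟨y, hy⟩ := m2.2.1 B hB
      rw [mem_inter] at hy
      exact (Finset.disjoint_left.1 hdis) (h hy.2) hy.1
    · obtain ⟨y, hy⟩ := m1.2.1 B hB
      rw [mem_inter] at hy
      exact (Finset.disjoint_left.1 h) hy.2 hy.1

/-! ### The example is Mengerian -/

lemma sum_blk (f : Finset (Fin 9) → ℕ) : ∑ B ∈ nine.blocks, f B = ∑ i, f (blk i) := by
  rw [blocks_eq, sum_image fun i _ j _ h => blk_inj h]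

lemma sum_blk_mem (f : Finset (Fin 9) → ℕ) (x : Fin 9) :
    ∑ B ∈ nine.blocks with x ∈ B, f B = ∑ i, if x ∈ blk i then f (blk i) else 0 := by
  rw [sum_filter, blocks_eq, sum_image fun i _ j _ h => blk_inj h]

lemma weak_duality (c : Fin 9 → ℕ) (w : Fin 10 → ℕ)
    (hw : ∀ x, (∑ i, if x ∈ blk i then w i else 0) ≤ c x) (C : Finset (Fin 9))
    (hC : ∀ i, (C ∩ blk i).Nonempty) : ∑ i, w i ≤ ∑ x ∈ C, c x := by
  calc ∑ i, w i ≤ ∑ i, ∑ x ∈ C, (if x ∈ blk i then w i else 0) := by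
        refine sum_le_sum fun i _ => ?_
        obtain ⟨x, hx⟩ := hC i
        rw [mem_inter] at hx
        calc w i = if x ∈ blk i then w i else 0 := by rw [if_pos hx.2]
          _ ≤ _ := single_le_sum (f := fun x => if x ∈ blk i then w i else 0)
            (fun _ _ => Nat.zero_le _) hx.1
    _ = ∑ x ∈ C, ∑ i, (if x ∈ blk i then w i else 0) := sum_comm
    _ ≤ ∑ x ∈ C, c x := sum_le_sum fun x _ => hw x

lemma split (x y P : ℕ) (h : P ≤ x + y) : ∃ p q, p ≤ x ∧ q ≤ y ∧ p + q = P := by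
  by_cases hx : P ≤ x
  · exact ⟨P, 0, hx, Nat.zero_le _, rfl⟩
  · exact ⟨x, P - x, le_rfl, by omega, by omega⟩

lemma min_exists (x₁ x₂ x₃ x₄ x₅ x₆ : ℕ) : ∃ t, t ≤ x₁ ∧ t ≤ x₂ ∧ t ≤ x₃ ∧ t ≤ x₄ ∧ t ≤ x₅ ∧
    t ≤ x₆ ∧ (t = x₁ ∨ t = x₂ ∨ t = x₃ ∨ t = x₄ ∨ t = x₅ ∨ t = x₆) :=
  ⟨min x₁ (min x₂ (min x₃ (min x₄ (min x₅ x₆)))), by omega⟩

/-- The integral packing. -/
lemma packing (a₁ a₂ a₃ b₁ b₂ b₃ c₁ c₂ c₃ : ℕ) :
    ∃ p₁ p₃ q₁ q₃ r₁ r₃ w₀ w₁ w₂ w₃ : ℕ,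
      p₁ + w₀ ≤ a₁ ∧ p₁ + p₃ + w₂ + w₃ ≤ a₂ ∧ p₃ + w₁ ≤ a₃ ∧
      q₁ + w₀ ≤ b₁ ∧ q₁ + q₃ + w₁ + w₃ ≤ b₂ ∧ q₃ + w₂ ≤ b₃ ∧
      r₁ + w₀ ≤ c₁ ∧ r₁ + r₃ + w₁ + w₂ ≤ c₂ ∧ r₃ + w₃ ≤ c₃ ∧
      (p₁ + p₃ + q₁ + q₃ + r₁ + r₃ + w₀ + w₁ + w₂ + w₃ = a₁ + a₂ + b₂ + c₂ ∨
       p₁ + p₃ + q₁ + q₃ + r₁ + r₃ + w₀ + w₁ + w₂ + w₃ = a₂ + b₁ + b₂ + c₂ ∨
       p₁ + p₃ + q₁ + q₃ + r₁ + r₃ + w₀ + w₁ + w₂ + w₃ = a₂ + b₂ + c₁ + c₂ ∨
       p₁ + p₃ + q₁ + q₃ + r₁ + r₃ + w₀ + w₁ + w₂ + w₃ = a₁ + a₃ + b₂ + c₂ ∨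
       p₁ + p₃ + q₁ + q₃ + r₁ + r₃ + w₀ + w₁ + w₂ + w₃ = a₂ + b₁ + b₃ + c₂ ∨
       p₁ + p₃ + q₁ + q₃ + r₁ + r₃ + w₀ + w₁ + w₂ + w₃ = a₂ + b₂ + c₁ + c₃ ∨
       p₁ + p₃ + q₁ + q₃ + r₁ + r₃ + w₀ + w₁ + w₂ + w₃ = a₁ + a₃ + b₁ + b₃ + c₁ + c₃ ∨
       p₁ + p₃ + q₁ + q₃ + r₁ + r₃ + w₀ + w₁ + w₂ + w₃ = a₂ + a₃ + b₁ + b₃ + c₁ + c₃ ∨
       p₁ + p₃ + q₁ + q₃ + r₁ + r₃ + w₀ + w₁ + w₂ + w₃ = a₁ + a₃ + b₂ + b₃ + c₁ + c₃ ∨
       p₁ + p₃ + q₁ + q₃ + r₁ + r₃ + w₀ + w₁ + w₂ + w₃ = a₁ + a₃ + b₁ + b₃ + c₂ + c₃) := by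
  by_cases ha : a₂ ≤ a₁ + a₃ <;> by_cases hb : b₂ ≤ b₁ + b₃ <;> by_cases hc : c₂ ≤ c₁ + c₃
  · obtain ⟨t, h1, h2, h3, h4, h5, h6, ht⟩ :=
      min_exists a₁ b₁ c₁ (a₁ + a₃ - a₂) (b₁ + b₃ - b₂) (c₁ + c₃ - c₂)
    obtain ⟨p₁, p₃, hp⟩ := split (a₁ - t) a₃ a₂ (by omega)
    obtain ⟨q₁, q₃, hq⟩ := split (b₁ - t) b₃ b₂ (by omega)
    obtain ⟨r₁, r₃, hr⟩ := split (c₁ - t) c₃ c₂ (by omega)
    refine ⟨p₁, p₃, q₁, q₃, r₁, r₃, t, 0, 0, 0, ?_, ?_, ?_, ?_, ?_, ?_, ?_, ?_, ?_, ?_⟩ <;> omega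
  · obtain ⟨p₁, p₃, hp⟩ := split a₁ a₃ a₂ (by omega)
    obtain ⟨q₁, q₃, hq⟩ := split b₁ b₃ b₂ (by omega)
    refine ⟨p₁, p₃, q₁, q₃, c₁, c₃, 0, 0, 0, 0, ?_, ?_, ?_, ?_, ?_, ?_, ?_, ?_, ?_, ?_⟩ <;> omega
  · obtain ⟨p₁, p₃, hp⟩ := split a₁ a₃ a₂ (by omega)
    obtain ⟨r₁, r₃, hr⟩ := split c₁ c₃ c₂ (by omega)
    refine ⟨p₁, p₃, b₁, b₃, r₁, r₃, 0, 0, 0, 0, ?_, ?_, ?_, ?_, ?_, ?_, ?_, ?_, ?_, ?_⟩ <;> omega
  · obtain ⟨t, h1, h2, h3, h4, h5, h6, ht⟩ :=
      min_exists a₃ (b₂ - (b₁ + b₃)) (c₂ - (c₁ + c₃)) (a₁ + a₃ - a₂) a₃ a₃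
    obtain ⟨p₁, p₃, hp⟩ := split a₁ (a₃ - t) a₂ (by omega)
    refine ⟨p₁, p₃, b₁, b₃, c₁, c₃, 0, t, 0, 0, ?_, ?_, ?_, ?_, ?_, ?_, ?_, ?_, ?_, ?_⟩ <;> omega
  · obtain ⟨q₁, q₃, hq⟩ := split b₁ b₃ b₂ (by omega)
    obtain ⟨r₁, r₃, hr⟩ := split c₁ c₃ c₂ (by omega)
    refine ⟨a₁, a₃, q₁, q₃, r₁, r₃, 0, 0, 0, 0, ?_, ?_, ?_, ?_, ?_, ?_, ?_, ?_, ?_, ?_⟩ <;> omega
  · obtain ⟨t, h1, h2, h3, h4, h5, h6, ht⟩ :=
      min_exists b₃ (a₂ - (a₁ + a₃)) (c₂ - (c₁ + c₃)) (b₁ + b₃ - b₂) b₃ b₃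
    obtain ⟨q₁, q₃, hq⟩ := split b₁ (b₃ - t) b₂ (by omega)
    refine ⟨a₁, a₃, q₁, q₃, c₁, c₃, 0, 0, t, 0, ?_, ?_, ?_, ?_, ?_, ?_, ?_, ?_, ?_, ?_⟩ <;> omega
  · obtain ⟨t, h1, h2, h3, h4, h5, h6, ht⟩ :=
      min_exists c₃ (a₂ - (a₁ + a₃)) (b₂ - (b₁ + b₃)) (c₁ + c₃ - c₂) c₃ c₃
    obtain ⟨r₁, r₃, hr⟩ := split c₁ (c₃ - t) c₂ (by omega)
    refine ⟨a₁, a₃, b₁, b₃, r₁, r₃, 0, 0, 0, t, ?_, ?_, ?_, ?_, ?_, ?_, ?_, ?_, ?_, ?_⟩ <;> omega
  · refine ⟨a₁, a₃, b₁, b₃, c₁, c₃, 0, 0, 0, 0, ?_, ?_, ?_, ?_, ?_, ?_, ?_, ?_, ?_, ?_⟩ <;> omega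

lemma mengerian_nine : nine.Mengerian := by
  refine Or.inr fun c => ?_
  obtain ⟨p₁, p₃, q₁, q₃, r₁, r₃, w₀, w₁, w₂, w₃, h0, h1, h2, h3, h4, h5, h6, h7, h8, htot⟩ :=
    packing (c 0) (c 1) (c 2) (c 3) (c 4) (c 5) (c 6) (c 7) (c 8)
  let w : Fin 10 → ℕ := ![p₁, p₃, q₁, q₃, r₁, r₃, w₀, w₁, w₂, w₃]
  have hinj := blk_inj
  let f : Finset (Fin 9) → ℕ := fun B => ∑ i, if blk i = B then w i else 0
  have hf : ∀ i, f (blk i) = w i := by
    intro i
    simp only [f, hinj.eq_iff]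
    simp
  have hw : ∀ x, (∑ i, if x ∈ blk i then w i else 0) ≤ c x := by
    intro x
    fin_cases x
    all_goals simp [blk, w, Fin.sum_univ_succ]
    all_goals omega
  have hcov : ∃ j, ∑ x ∈ cov j, c x = ∑ i, w i := by
    have hs : ∑ i, w i = p₁ + p₃ + q₁ + q₃ + r₁ + r₃ + w₀ + w₁ + w₂ + w₃ := by
      simp [w, Fin.sum_univ_succ]; omega
    rw [hs]
    rcases htot with h | h | h | h | h | h | h | h | h | h
    · exact ⟨0, by simp [cov]; omega⟩
    · exact ⟨1, by simp [cov]; omega⟩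
    · exact ⟨2, by simp [cov]; omega⟩
    · exact ⟨3, by simp [cov]; omega⟩
    · exact ⟨4, by simp [cov]; omega⟩
    · exact ⟨5, by simp [cov]; omega⟩
    · exact ⟨6, by simp [cov]; omega⟩
    · exact ⟨7, by simp [cov]; omega⟩
    · exact ⟨8, by simp [cov]; omega⟩
    · exact ⟨9, by simp [cov]; omega⟩
  refine ⟨f, fun x _ => ?_, ?_, ?_⟩
  · rw [sum_blk_mem]
    simp only [hf]
    exact hw x
  · obtain ⟨j, hj⟩ := hcov
    refine ⟨cov j, cov_mem j, ?_⟩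
    rw [hj, sum_blk]
    simp only [hf]
  · rintro m ⟨C, hC, rfl⟩
    rw [sum_blk]
    simp only [hf]
    rw [mem_dual] at hC
    exact weak_duality c w hw C ((nine_meets C).1 hC.2.1)

/-- **Theorem.** There is a Mengerian set system which does not contain the system
`𝒬 = (abc, cde, bdf, aef, cf, be, ad)` as a minor and whose Menger dual does not have the Menger
property. -/
theorem result : ∃ (α : Type) (_ : DecidableEq α) (F : SetSystem α),
    F.Mengerian ∧ ¬ F.Contains seven ∧ ¬ F.dual.MengerProperty :=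
  ⟨Fin 9, inferInstance, nine, mengerian_nine, not_contains, not_menger⟩

end Pool.Agent.Results.MP_f18e63_co.NinePoints
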